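import Pool.Agent.HYB.Final

/-!
# Triangle detection on vertex machines with a network and a shared memory (MP_ad5e8e_lc)
-/

namespace Pool.Agent.Results.MP_ad5e8e_lc.HybridMachine

open MeasureTheory Pool.Agent.HYB

/-- There are `c > 0` and `s₀` such that for all `s ≥ s₀`, `n ≤ s ≤ 2 n`, all `B`, `b`, `d` and all
networks `H` of degree at most `d`: if a random vertex machine with `B`-bit messages and a shared
memory of `b`-bit words detects triangles with error at most `1/3` on all graphs with `n` vertices
and at most `n` edges (so of size at most `2 n`), in expected time at most `T`, where a pass over a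
graph with `n` vertices and `m` edges takes time `n + m`, and with at most `J` expected changes of
cells, then `T ≥ c s log (s / (1 + J (b + log s))) / log (B + d + log s)`. -/
theorem result : ∃ c : ℝ, 0 < c ∧ ∃ s₀ : ℕ, ∀ (n s B b d : ℕ), s₀ ≤ s → n ≤ s → s ≤ 2 * n →
    ∀ (Q Ω : Type) [MeasurableSpace Ω] (μ : Measure Ω) [IsProbabilityMeasure μ]
      (M : Ω → Machine n B b Q) (H : Net n) (T J : ℝ), DegLE H d → DetectsTriangles μ M H →
      ExpectedTimeLE μ M H T → ExpectedChangesLE μ M H J →
        c * (s * Real.log (s / (1 + J * (b + Real.log s))) / Real.log (B + d + Real.log s)) ≤ T :=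
  main

end Pool.Agent.Results.MP_ad5e8e_lc.HybridMachine
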