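import Pool.Agent.HLP.All

/-!
# Triangle detection by machines with heads on linked adjacency lists
-/

open MeasureTheory
open Pool.Agent.HDL (SeekCost LMachine DetectsTriangles HasDegrees)
open Pool.Agent.HLP (ExpectedCostLE)

namespace Pool.Agent.Results.MP_ad5e8e_lc.LinkedLists

/-- There are `c > 0` and `n0` such that for all `n ≥ n0`, `n ≤ m ≤ n ^ 2`, `k ≥ 1`, `S` and for both
values of `ra` (random access to the lists allowed or not) there is a number `e` of edges,
`c m exp (-20 √(log r)) ≤ e ≤ m`, where `r = m` if `ra = true`, `r = m / n` if `ra = false`, and for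
every number `v ≥ n` of vertices a degree sequence `d` with `e` edges, of graphs with and of graphs
without triangles, such that: if a randomised machine with `k` heads on the adjacency lists and at most
`2 ^ S` memory states detects triangles in the graphs with degrees `d` with error probability at most
`1 / 3` at expected cost at most `T`, where moving a head to distance `D ≥ 1` from the old places of
the heads and (if `ra = true`) the starts of the lists costs `f D` for some seek cost `f`, and the cost
of a step is the sum of the costs of these moves and at least `1`, then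
`(S + k log n) (T + k) ≥ c m f(D) exp (-20 √(log r))` for all `D` with `k D ^ 2 ≤ n (S + k log n)` and,
if `ra = true`, `k D ^ 3 ≤ m (S + k log n)`. -/
theorem result :
    ∃ c : ℝ, 0 < c ∧ ∃ n0 : ℕ, ∀ n ≥ n0, ∀ m : ℕ, n ≤ m → m ≤ n ^ 2 → ∀ k S : ℕ, 1 ≤ k →
      ∀ ra : Bool, ∃ e : ℕ, e ≤ m ∧
        c * m * Real.exp (-20 * √(Real.log (if ra then (m : ℝ) else m / n))) ≤ e ∧
        ∀ v ≥ n, ∃ d : Fin v → ℕ, ∑ i, d i = 2 * e ∧
          (∃ G H : SimpleGraph (Fin v), HasDegrees G d ∧ HasDegrees H d ∧ ¬ G.CliqueFree 3 ∧
            H.CliqueFree 3) ∧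
          ∀ f : ℕ → ℝ, SeekCost f → ∀ D : ℕ, (k : ℝ) * D ^ 2 ≤ n * (S + k * Real.log n) →
          (ra = true → (k : ℝ) * D ^ 3 ≤ m * (S + k * Real.log n)) →
          ∀ (T : ℝ) (Q Ω : Type) [Fintype Q] [MeasurableSpace Ω] (μ : Measure Ω)
            [IsProbabilityMeasure μ], Fintype.card Q ≤ 2 ^ S → ∀ M : LMachine d k Q Ω,
            DetectsTriangles M μ → ExpectedCostLE M μ ra f T →
            c * m * f D * Real.exp (-20 * √(Real.log (if ra then (m : ℝ) else m / n))) ≤
              (S + k * Real.log n) * (T + k) :=
  Pool.Agent.HLP.main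

end Pool.Agent.Results.MP_ad5e8e_lc.LinkedLists
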