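import Pool.Agent.NegTri.Main

namespace Pool.Agent.Results.MP_ad5e8e_lc.NegationLimitedTriangle

open Pool.Agent.NegTri

/-- A random circuit whose registers hold real numbers, whose gates are arbitrary nondecreasing functions
of two registers, maxima and minima of any number of registers, and at most `r` NOT gates (antitone
Boolean tests of one register), and which detects triangles in graphs on `v` vertices with error at
most `1 / 3`, has expected size at least `v ^ (3 - ε) / 2 ^ (3 r / 2)` if `v` is large. -/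
theorem result (ε : ℝ) (hε : 0 < ε) : ∃ v₀ : ℕ, ∀ v : ℕ, v₀ ≤ v →
    ∀ (r : ℕ) (Ω : Type) [Fintype Ω] (p : Ω → ℝ) (C : Ω → Circ (Sym2 (Fin v))),
      Detects v p C → (∀ ω, (C ω).negs ≤ r) →
        (v : ℝ) ^ (3 - ε) / 2 ^ (3 * (r : ℝ) / 2) ≤ ∑ ω, p ω * (C ω).size :=
  t_MAIN.1 ε hε

end Pool.Agent.Results.MP_ad5e8e_lc.NegationLimitedTriangle
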