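import Pool.Agent.TGK.Main

/-!
# Triangle detection needs superlinear time on machines with random access to the graph, one
unlimited work tape and a main memory at a price
-/

set_option autoImplicit false

open MeasureTheory

namespace Pool.Agent.Results.MP_ad5e8e_lc.OneWorkTape

open Pool.Agent.TGK
open Pool.Agent.RMS (Cell Dir act)

/-- For all `d ≥ 1`, `κ` and `0 < ε < 1` there are `c > 0` and `s₀` such that for all `s ≥ s₀`, `φ ≥ s₀` there
are `n` and a degree sequence `δ` of total size `s` such that the following holds. Let a randomised machine
with random access to the input graph, with one unlimited tape of dimension `d` (the cells are the points of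
`ℤ ^ d`; a move leads to a neighbouring cell) and with a main memory have at most `2 ^ (s ^ ((1 - ε) / d))`
states, at most `2 ^ (s ^ (ε / 2))` letters, at most `s ^ κ` registers in the main memory and at most `s ^ κ`
contents of such a register. In one step it accesses at most one register of the main memory, asks one
question about the graph, goes to a new state, writes into the scanned cell and into the accessed register
and moves the head by at most one cell. A step costs `1`, and `φ` more if it accesses the main memory. If the
machine answers with probability at least `2 / 3` correctly on every graph with degree sequence `δ` whether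
there is a triangle, at an expected cost of at most `T`, then `T ≥ c * s * m / log m`, where
`m = min (log s) (log φ)`. (Without main memory and for `φ = s`: time `c * s * log s / log log s`.) -/
theorem result (d κ : ℕ) (ε : ℝ) (hd : 1 ≤ d) (hε : 0 < ε) (hε1 : ε < 1) : ∃ c : ℝ, 0 < c ∧
    ∃ s₀ : ℕ, ∀ (s : ℕ) (φ : ℝ), s₀ ≤ s → (s₀ : ℝ) ≤ φ →
      ∃ (n : ℕ) (δ : Fin n → ℕ), 2 * n + ∑ v, δ v = 2 * s ∧
      ∀ (Q Γ A X Ω : Type) [Fintype Q] [Fintype Γ] [Fintype A] [Fintype X] [MeasurableSpace Ω]
        (μ : Measure Ω) [IsProbabilityMeasure μ] (M : Machine n Q Γ (Cell d) (Dir d) A X Ω) (T : ℝ),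
        ((Fintype.card Q : ℝ) ≤ 2 ^ ((s : ℝ) ^ ((1 - ε) / d))) →
        ((Fintype.card Γ : ℝ) ≤ 2 ^ ((s : ℝ) ^ (ε / 2))) →
        Fintype.card A ≤ s ^ κ → Fintype.card X ≤ s ^ κ →
        M.DetectsTriangles act μ δ → M.ExpectedCostLE act μ δ φ T →
        c * s * (min (Real.log s) (Real.log φ) / Real.log (min (Real.log s) (Real.log φ))) ≤ T :=
  taq d κ ε hd hε hε1

end Pool.Agent.Results.MP_ad5e8e_lc.OneWorkTape
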